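import Mathlib

/-!
# Lagrange interpolation over an algebra
-/

set_option autoImplicit false

open Polynomial

namespace Pool.Agent.V5helper65.PT

variable {k : Type} [Field k] {σ : Type} [Fintype σ] [DecidableEq σ] (q : σ → k)
variable (F : Type) [CommRing F] [Algebra k F]

/-- `∏_{l ≠ j} (X - q_l)` over the algebra `F`. -/
noncomputable def LL (j : σ) : F[X] :=
  ∏ l ∈ Finset.univ.erase j, (X - C (algebraMap k F (q l)))

/-- `γ_j`. -/
noncomputable def gam (j : σ) : k := (∏ l ∈ Finset.univ.erase j, (q j - q l))⁻¹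

/-- the interpolation sum -/
noncomputable def Int (u : σ → F) : F[X] := ∑ j, C (u j) * LL q F j

variable {q F}

lemma LL_map (j : σ) : LL q F j = (LL q k j).map (algebraMap k F) := by
  unfold LL
  rw [Polynomial.map_prod]
  refine Finset.prod_congr rfl fun l _ => ?_
  rw [Polynomial.map_sub, map_X, map_C, Algebra.algebraMap_self_apply]

lemma prod_ne (hq : Function.Injective q) (j : σ) : ∏ l ∈ Finset.univ.erase j, (q j - q l) ≠ 0 := by
  rw [Finset.prod_ne_zero_iff]
  intro l hl
  rw [Finset.mem_erase] at hl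
  exact sub_ne_zero.mpr fun h => hl.1 (hq h).symm

lemma key (hq : Function.Injective q) (p : k[X]) (hp : p.degree < (Fintype.card σ : ℕ)) :
    p = ∑ j, C (gam q j * p.eval (q j)) * LL q k j := by
  have h := Lagrange.eq_interpolate (s := (Finset.univ : Finset σ)) (v := q) (f := p)
    (fun a _ b _ h => hq h) (by rwa [Finset.card_univ])
  conv_lhs => rw [h, Lagrange.interpolate_apply]
  refine Finset.sum_congr rfl fun j _ => ?_
  unfold Lagrange.basis Lagrange.basisDivisor LL gam
  rw [Finset.prod_mul_distrib, ← map_prod, Finset.prod_inv_distrib, ← mul_assoc, ← C_mul,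
    mul_comm (eval _ _)]
  simp only [Algebra.algebraMap_self_apply]

lemma key_pow (hq : Function.Injective q) {i : ℕ} (hi : i < Fintype.card σ) :
    (X ^ i : F[X]) = ∑ j, C (algebraMap k F (gam q j * q j ^ i)) * LL q F j := by
  have h := key hq (X ^ i : k[X]) (by
    rw [degree_X_pow]
    exact_mod_cast hi)
  have h2 := congrArg (Polynomial.map (algebraMap k F)) h
  rw [Polynomial.map_pow, map_X, Polynomial.map_sum] at h2
  rw [h2]
  refine Finset.sum_congr rfl fun j _ => ?_
  rw [Polynomial.map_mul, map_C, ← LL_map, eval_pow, eval_X]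

lemma key_F (hq : Function.Injective q) (P : F[X]) (hP : ∀ i, Fintype.card σ ≤ i → P.coeff i = 0) :
    P = Int q F fun j => algebraMap k F (gam q j) * P.eval (algebraMap k F (q j)) := by
  have hd : P.natDegree < Fintype.card σ ∨ P = 0 := by
    by_cases h0 : P = 0
    · exact Or.inr h0
    · left
      by_contra hc
      exact h0 (leadingCoeff_eq_zero.mp (hP _ (not_lt.mp hc)))
  have h1 : P = ∑ i ∈ Finset.range (Fintype.card σ), C (P.coeff i) * X ^ i := by
    rcases hd with hd | hd
    · exact P.as_sum_range_C_mul_X_pow' hd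
    · rw [hd]
      simp
  have h2 : ∀ x : F, P.eval x = ∑ i ∈ Finset.range (Fintype.card σ), P.coeff i * x ^ i := by
    intro x
    conv_lhs => rw [h1]
    rw [eval_finsetSum]
    refine Finset.sum_congr rfl fun i _ => ?_
    rw [eval_mul, eval_C, eval_pow, eval_X]
  unfold Int
  conv_lhs => rw [h1]
  have h3 : ∀ j, C (algebraMap k F (gam q j) * P.eval (algebraMap k F (q j))) * LL q F j =
      ∑ i ∈ Finset.range (Fintype.card σ),
        C (P.coeff i) * (C (algebraMap k F (gam q j * q j ^ i)) * LL q F j) := by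
    intro j
    rw [h2, Finset.mul_sum, map_sum, Finset.sum_mul]
    refine Finset.sum_congr rfl fun i _ => ?_
    simp only [map_mul, map_pow]
    ring
  rw [Finset.sum_congr rfl fun j _ => h3 j, Finset.sum_comm]
  refine Finset.sum_congr rfl fun i hi => ?_
  rw [← Finset.mul_sum, ← key_pow hq (Finset.mem_range.mp hi)]

lemma LL_coeff_top {n : ℕ} (hn : Fintype.card σ = n + 2) (j : σ) : (LL q F j).coeff (n + 1) = 1 := by
  rcases subsingleton_or_nontrivial F with h | h
  · exact Subsingleton.elim _ _
  have hc : (Finset.univ.erase j).card = n + 1 := by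
    rw [Finset.card_erase_of_mem (Finset.mem_univ j), Finset.card_univ, hn]
    rfl
  have hm : (LL q F j).Monic := monic_prod_of_monic _ _ fun l _ => monic_X_sub_C _
  have hd : (LL q F j).natDegree = n + 1 := by
    unfold LL
    rw [natDegree_finsetProd_X_sub_C_eq_card, hc]
  rw [← hd]
  exact hm.coeff_natDegree

lemma LL_coeff_next {n : ℕ} (hn : Fintype.card σ = n + 2) (j : σ) :
    (LL q F j).coeff n = algebraMap k F (q j) - ∑ l, algebraMap k F (q l) := by
  have hc : (Finset.univ.erase j).card = n + 1 := by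
    rw [Finset.card_erase_of_mem (Finset.mem_univ j), Finset.card_univ, hn]
    rfl
  have h := prod_X_sub_C_coeff_card_pred (Finset.univ.erase j) (fun l => algebraMap k F (q l))
    (by rw [hc]; omega)
  rw [hc] at h
  unfold LL
  rw [show n = n + 1 - 1 from rfl, h, ← Finset.add_sum_erase _ _ (Finset.mem_univ j)]
  ring

lemma LL_coeff_above {n : ℕ} (hn : Fintype.card σ = n + 2) (j : σ) {i : ℕ} (hi : n + 1 < i) :
    (LL q F j).coeff i = 0 := by
  rcases subsingleton_or_nontrivial F with h | h
  · exact Subsingleton.elim _ _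
  have hc : (Finset.univ.erase j).card = n + 1 := by
    rw [Finset.card_erase_of_mem (Finset.mem_univ j), Finset.card_univ, hn]
    rfl
  apply coeff_eq_zero_of_natDegree_lt
  unfold LL
  rw [natDegree_finsetProd_X_sub_C_eq_card, hc]
  exact hi

lemma LL_eval_ne {i j : σ} (h : i ≠ j) : (LL q F j).eval (algebraMap k F (q i)) = 0 := by
  unfold LL
  rw [eval_prod]
  apply Finset.prod_eq_zero (Finset.mem_erase.mpr ⟨h, Finset.mem_univ i⟩)
  rw [eval_sub, eval_X, eval_C, sub_self]

lemma LL_eval_self (j : σ) : (LL q F j).eval (algebraMap k F (q j)) =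
    algebraMap k F (∏ l ∈ Finset.univ.erase j, (q j - q l)) := by
  unfold LL
  rw [eval_prod, map_prod]
  refine Finset.prod_congr rfl fun l _ => ?_
  rw [eval_sub, eval_X, eval_C, map_sub]

lemma Int_coeff (u : σ → F) (i : ℕ) : (Int q F u).coeff i = ∑ j, u j * (LL q F j).coeff i := by
  unfold Int
  rw [finsetSum_coeff]
  refine Finset.sum_congr rfl fun j _ => ?_
  rw [coeff_C_mul]

lemma Int_top {n : ℕ} (hn : Fintype.card σ = n + 2) (u : σ → F) :
    (Int q F u).coeff (n + 1) = ∑ j, u j := by
  rw [Int_coeff]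
  refine Finset.sum_congr rfl fun j _ => ?_
  rw [LL_coeff_top hn, mul_one]

lemma Int_next {n : ℕ} (hn : Fintype.card σ = n + 2) (u : σ → F) :
    (Int q F u).coeff n = ∑ j, algebraMap k F (q j) * u j -
      (∑ l, algebraMap k F (q l)) * ∑ j, u j := by
  rw [Int_coeff, Finset.mul_sum, ← Finset.sum_sub_distrib]
  refine Finset.sum_congr rfl fun j _ => ?_
  rw [LL_coeff_next hn]
  ring

lemma Int_above {n : ℕ} (hn : Fintype.card σ = n + 2) (u : σ → F) {i : ℕ} (hi : n + 1 < i) :
    (Int q F u).coeff i = 0 := by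
  rw [Int_coeff]
  refine Finset.sum_eq_zero fun j _ => ?_
  rw [LL_coeff_above hn j hi, mul_zero]

lemma Int_eval (u : σ → F) (i : σ) : (Int q F u).eval (algebraMap k F (q i)) =
    u i * algebraMap k F (∏ l ∈ Finset.univ.erase i, (q i - q l)) := by
  unfold Int
  rw [eval_finsetSum, Finset.sum_eq_single i]
  · rw [eval_mul, eval_C, LL_eval_self]
  · intro j _ hj
    rw [eval_mul, LL_eval_ne (Ne.symm hj), mul_zero]
  · intro h
    exact absurd (Finset.mem_univ i) h

end Pool.Agent.V5helper65.PT
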