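import Pool.Agent.V5helper52.PT.Stm
import Pool.Agent.V5helper65.PT.LagAlg

/-!
# Job LAG of project PT: Lagrange interpolation
-/

set_option autoImplicit false

open MvPolynomial Pool.Agent.V5helper52.FW Pool.Agent.V5helper52.PT

namespace Pool.Agent.V5helper65.PT

lemma aeval_ferm {k : Type} [Field k] {σ : Type} [Fintype σ] {F : Type} [CommRing F] [Algebra k F]
    (E : ℕ) (c : σ → k) (w : σ → F) :
    aeval w (Ferm E σ c) = ∑ j, algebraMap k F (c j) * w j ^ E := by
  unfold Ferm
  rw [map_sum]
  refine Finset.sum_congr rfl fun j _ => ?_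
  rw [map_mul, map_pow, aeval_X, aeval_C]

lemma hom_ferm {k : Type} [Field k] {σ : Type} [Fintype σ] {F : Type} [CommRing F] [Algebra k F]
    (E : ℕ) (c : σ → k) (g : MvPolynomial σ k →ₐ[k] F) :
    g (Ferm E σ c) = ∑ j, algebraMap k F (c j) * g (X j) ^ E := by
  unfold Ferm
  rw [map_sum]
  refine Finset.sum_congr rfl fun j _ => ?_
  rw [map_mul, map_pow]
  congr 1
  exact g.commutes (c j)

theorem t_LAG : S_LAG := by
  intro k _ E hE σ _ _ A q hA hq n hn D _ _ P w hS
  have hg : ∀ j, (∏ l ∈ Finset.univ.erase j, (q j - q l))⁻¹ = gam q j := fun j => rfl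
  simp only [hg] at hS
  have hgam : ∀ j, gam q j ≠ 0 := fun j => inv_ne_zero (prod_ne hq j)
  have hgA : ∀ j, gam q j * (A j)⁻¹ ≠ 0 := fun j => mul_ne_zero (hgam j) (inv_ne_zero (hA j))
  -- the relations between the values
  have hval : ∀ j, algebraMap k D (gam q j) * P.eval (algebraMap k D (q j)) =
      algebraMap k D (A j) * w j ^ E := by
    intro j
    rw [hS.rel j, ← mul_assoc, ← map_mul]
    congr 2
    field_simp [hA j]
  have hPc : ∀ i, Fintype.card σ ≤ i → P.coeff i = 0 := fun i hi => hS.mon.2 i (by omega)
  have hint := key_F hq P hPc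
  rw [show (fun j => algebraMap k D (gam q j) * P.eval (algebraMap k D (q j))) =
    fun j => algebraMap k D (A j) * w j ^ E from funext hval] at hint
  have h0 : ∑ j, algebraMap k D (A j) * w j ^ E = 0 := by
    rw [← Int_top (q := q) hn, ← hint]
    exact hS.mon.2 _ (by omega)
  have h1 : ∑ j, algebraMap k D (A j * q j) * w j ^ E = 1 := by
    have h2 := Int_next (q := q) (F := D) hn (fun j => algebraMap k D (A j) * w j ^ E)
    rw [← hint, hS.mon.1, h0, mul_zero, sub_zero] at h2
    rw [h2]
    refine Finset.sum_congr rfl fun j _ => ?_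
    rw [map_mul]
    ring
  refine ⟨?_, ?_, ?_, ?_⟩
  · intro a ha
    have hle : Ideal.span {Ferm E σ A, Ferm E σ (fun j => A j * q j) - 1} ≤
        RingHom.ker (aeval w : MvPolynomial σ k →ₐ[k] D) := by
      rw [Ideal.span_le]
      rintro x (rfl | rfl)
      · show aeval w _ = 0
        rw [aeval_ferm, h0]
      · show aeval w _ = 0
        rw [map_sub, map_one, aeval_ferm, h1, sub_self]
    exact hle ha
  · rw [map_prod]
    simp only [aeval_X]
    exact IsUnit.prod_univ_iff.mpr hS.unit
  · intro F _ _ g hg0 hgu
    have e0 : ∑ j, algebraMap k F (A j) * g (X j) ^ E = 0 := by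
      rw [← hom_ferm]
      exact hg0 _ (Ideal.subset_span (Or.inl rfl))
    have e1 : ∑ j, algebraMap k F (A j * q j) * g (X j) ^ E = 1 := by
      rw [← hom_ferm, ← sub_eq_zero]
      have h := hg0 (Ferm E σ (fun j => A j * q j) - 1) (Ideal.subset_span (Or.inr rfl))
      rwa [map_sub, map_one] at h
    have hu : ∀ j, IsUnit (g (X j)) := by
      rw [map_prod] at hgu
      exact IsUnit.prod_univ_iff.mp hgu
    have hmon : IsMon n (Int q F fun j => algebraMap k F (A j) * g (X j) ^ E) := by
      refine ⟨?_, ?_⟩
      · rw [Int_next hn, e0, mul_zero, sub_zero, ← e1]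
        refine Finset.sum_congr rfl fun j _ => ?_
        rw [map_mul]
        ring
      · intro i hi
        rcases Nat.lt_or_ge (n + 1) i with h | h
        · exact Int_above hn _ h
        · rw [show i = n + 1 by omega, Int_top hn, e0]
    obtain ⟨h, hh1, hh2⟩ := hS.lift F (Int q F fun j => algebraMap k F (A j) * g (X j) ^ E)
      (fun j => g (X j)) hmon (by
        intro j
        rw [Int_eval]
        show g (X j) ^ E = algebraMap k F (gam q j * (A j)⁻¹) *
          (algebraMap k F (A j) * g (X j) ^ E *
            algebraMap k F (∏ l ∈ Finset.univ.erase j, (q j - q l)))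
        have h3 : gam q j * (A j)⁻¹ * A j * ∏ l ∈ Finset.univ.erase j, (q j - q l) = 1 := by
          unfold gam
          rw [inv_mul_cancel_right₀ (hA j), inv_mul_cancel₀ (prod_ne hq j)]
        calc g (X j) ^ E = algebraMap k F 1 * g (X j) ^ E := by rw [map_one, one_mul]
          _ = _ := by
            rw [← h3, map_mul, map_mul]
            ring) hu
    refine ⟨h, ?_⟩
    apply MvPolynomial.algHom_ext
    intro j
    show h (aeval w (X j)) = _
    rw [aeval_X, hh2]
  · intro F _ _ h h' e
    have hw : ∀ j, h (w j) = h' (w j) := by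
      intro j
      have h2 := DFunLike.congr_fun e (X j)
      change h (aeval w (X j)) = h' (aeval w (X j)) at h2
      rwa [aeval_X] at h2
    refine hS.ext F h h' ?_ hw
    have hmap : ∀ f : D →ₐ[k] F, P.map (f : D →+* F) =
        Int q F fun j => algebraMap k F (A j) * f (w j) ^ E := by
      intro f
      conv_lhs => rw [hint]
      unfold Int
      rw [Polynomial.map_sum]
      refine Finset.sum_congr rfl fun j _ => ?_
      rw [Polynomial.map_mul, Polynomial.map_C]
      congr 1
      · congr 1
        show f (algebraMap k D (A j) * w j ^ E) = _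
        rw [map_mul, map_pow, AlgHom.commutes]
      · unfold LL
        rw [Polynomial.map_prod]
        refine Finset.prod_congr rfl fun l _ => ?_
        rw [Polynomial.map_sub, Polynomial.map_X, Polynomial.map_C]
        congr 2
        exact f.commutes _
    rw [hmap, hmap]
    simp only [hw]

end Pool.Agent.V5helper65.PT
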